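import Mathlib
import Pool.Agent.Helper919.Volt.L0

set_option autoImplicit false

/-!
# Homological dimensions of a Banach algebra, and the Volterra algebra

All modules are complex Banach modules over a complex Banach algebra `A` (without unit), the
homology is relative Banach homology.
-/

namespace Pool.Agent.H724R3.Hd

/-- `f` is a bounded linear map. -/
structure BdLin {X Y : Type} [NormedAddCommGroup X] [NormedSpace ℂ X] [NormedAddCommGroup Y]
    [NormedSpace ℂ Y] (f : X → Y) : Prop where
  add : ∀ x y, f (x + y) = f x + f y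
  smul : ∀ (c : ℂ) (x : X), f (c • x) = c • f x
  bound : ∃ C : ℝ, ∀ x, ‖f x‖ ≤ C * ‖x‖

/-- `f` is a bounded bilinear map. -/
structure BdBilin {X Y Z : Type} [NormedAddCommGroup X] [NormedSpace ℂ X] [NormedAddCommGroup Y]
    [NormedSpace ℂ Y] [NormedAddCommGroup Z] [NormedSpace ℂ Z] (f : X → Y → Z) : Prop where
  add_left : ∀ x x' y, f (x + x') y = f x y + f x' y
  smul_left : ∀ (c : ℂ) (x : X) (y : Y), f (c • x) y = c • f x y
  add_right : ∀ x y y', f x (y + y') = f x y + f x y'
  smul_right : ∀ (c : ℂ) (x : X) (y : Y), f x (c • y) = c • f x y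
  bound : ∃ C : ℝ, ∀ x y, ‖f x y‖ ≤ C * ‖x‖ * ‖y‖

/-- `f` is a bounded `n`-linear map. -/
structure BdMult {X Y : Type} [NormedAddCommGroup X] [NormedSpace ℂ X] [NormedAddCommGroup Y]
    [NormedSpace ℂ Y] {n : ℕ} (f : (Fin n → X) → Y) : Prop where
  add : ∀ (v : Fin n → X) (i : Fin n) (x x' : X),
    f (Function.update v i (x + x')) = f (Function.update v i x) + f (Function.update v i x')
  smul : ∀ (v : Fin n → X) (i : Fin n) (c : ℂ) (x : X),
    f (Function.update v i (c • x)) = c • f (Function.update v i x)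
  bound : ∃ C : ℝ, ∀ v, ‖f v‖ ≤ C * ∏ i, ‖v i‖

section Defs

variable (A : Type) [NonUnitalNormedRing A] [NormedSpace ℂ A]

/-- A Banach left `A`-module: a complex Banach space `X` with a bounded bilinear action
`(a, x) ↦ a x` such that `(a b) x = a (b x)`. -/
structure LMod where
  X : Type
  [grp : NormedAddCommGroup X]
  [spc : NormedSpace ℂ X]
  [cpl : CompleteSpace X]
  act : A → X → X
  act_bilin : BdBilin act
  act_mul : ∀ (a b : A) (x : X), act (a * b) x = act a (act b x)

attribute [instance] LMod.grp LMod.spc LMod.cpl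

variable {A}

/-- Morphisms of Banach left modules: bounded linear maps commuting with the action. -/
def IsMor (M N : LMod A) (f : M.X → N.X) : Prop :=
  BdLin f ∧ ∀ a x, f (M.act a x) = N.act a (f x)

/-- A Banach left module `P` is projective if every morphism onto `P` which has a right inverse
as a bounded linear map has a right inverse as a morphism. -/
def Projective (P : LMod A) : Prop :=
  ∀ (Y : LMod A) (π : Y.X → P.X), IsMor Y P π →
    (∃ s : P.X → Y.X, BdLin s ∧ ∀ p, π (s p) = p) →
    ∃ ψ : P.X → Y.X, IsMor P Y ψ ∧ ∀ p, π (ψ p) = p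

/-- A projective resolution `0 ← M ← P 0 ← P 1 ← ⋯` of `M` with `P k = 0` for `k > n`: a complex
of projective Banach left modules over `M` which splits as a complex of Banach spaces (by the
bounded linear contracting homotopy `σ, s`). -/
structure ProjRes (M : LMod A) (n : ℕ) where
  P : ℕ → LMod A
  proj : ∀ k, Projective (P k)
  ε : (P 0).X → M.X
  ε_mor : IsMor (P 0) M ε
  d : ∀ k, (P (k + 1)).X → (P k).X
  d_mor : ∀ k, IsMor (P (k + 1)) (P k) (d k)
  ε_d : ∀ x, ε (d 0 x) = 0
  d_d : ∀ k x, d k (d (k + 1) x) = 0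
  σ : M.X → (P 0).X
  σ_lin : BdLin σ
  s : ∀ k, (P k).X → (P (k + 1)).X
  s_lin : ∀ k, BdLin (s k)
  split_ε : ∀ x, ε (σ x) = x
  split_zero : ∀ x, σ (ε x) + d 0 (s 0 x) = x
  split_succ : ∀ k x, s k (d k x) + d (k + 1) (s (k + 1) x) = x
  zero : ∀ k, n < k → ∀ x : (P k).X, x = 0

/-- The homological dimension `dh_A M`: the least `n` such that `M` has a projective resolution
with `P k = 0` for `k > n`, and `∞` if there is no such `n`. -/
noncomputable def dh (M : LMod A) : ℕ∞ := ⨅ (n : ℕ) (_ : Nonempty (ProjRes M n)), (n : ℕ∞)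

/-- `M` is irreducible: it is not zero, and its only linear subspaces which are invariant under the
action are `0` and `M`. -/
def Irred (M : LMod A) : Prop :=
  (∃ x : M.X, x ≠ 0) ∧ ∀ p : M.X → Prop, p 0 → (∀ x y, p x → p y → p (x + y)) →
    (∀ (c : ℂ) (x : M.X), p x → p (c • x)) → (∀ a x, p x → p (M.act a x)) →
    (∀ x, p x → x = 0) ∨ ∀ x, p x

variable (A) in
/-- A Banach `A`-bimodule: a complex Banach space `X` with bounded bilinear left and right
actions; `ract a x` stands for `x a`. -/
structure BiMod where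
  X : Type
  [grp : NormedAddCommGroup X]
  [spc : NormedSpace ℂ X]
  [cpl : CompleteSpace X]
  lact : A → X → X
  lact_bilin : BdBilin lact
  lact_mul : ∀ (a b : A) (x : X), lact (a * b) x = lact a (lact b x)
  ract : A → X → X
  ract_bilin : BdBilin ract
  ract_mul : ∀ (a b : A) (x : X), ract (a * b) x = ract b (ract a x)
  lact_ract : ∀ (a b : A) (x : X), lact a (ract b x) = ract b (lact a x)

attribute [instance] BiMod.grp BiMod.spc BiMod.cpl

/-- The Hochschild coboundary
`(δ f)(a₀, …, aₙ) = a₀ f(a₁, …, aₙ) + ∑_{i<n} (-1)^{i+1} f(a₀, …, aᵢ aᵢ₊₁, …, aₙ)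
  + (-1)^{n+1} f(a₀, …, aₙ₋₁) aₙ`. -/
noncomputable def hoch (M : BiMod A) {n : ℕ} (f : (Fin n → A) → M.X) (v : Fin (n + 1) → A) : M.X :=
  M.lact (v 0) (f (Fin.tail v)) +
    ∑ i : Fin n, (-1 : ℤ) ^ ((i : ℕ) + 1) • f (Fin.contractNth i.castSucc (· * ·) v) +
    (-1 : ℤ) ^ (n + 1) • M.ract (v (Fin.last n)) (f (Fin.init v))

/-- `H^{n+1}(A, M) = 0`: every bounded `(n+1)`-linear cocycle with values in the bimodule `M` is
the coboundary of a bounded `n`-linear cochain. -/
def HZero (M : BiMod A) (n : ℕ) : Prop :=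
  ∀ f : (Fin (n + 1) → A) → M.X, BdMult f → (∀ v, hoch M f v = 0) →
    ∃ g : (Fin n → A) → M.X, BdMult g ∧ ∀ v, hoch M g v = f v

variable (A)

/-- The left global dimension `dg A = sup dh_A M` over all Banach left `A`-modules `M`. -/
noncomputable def dg : ℕ∞ := ⨆ M : LMod A, dh M

/-- The left small dimension `ds A = sup dh_A M` over the irreducible Banach left modules. -/
noncomputable def ds : ℕ∞ := ⨆ (M : LMod A) (_ : Irred M), dh M

/-- The bidimension `db A`: the least `n` such that `H^{n+1}(A, M) = 0` for every Banach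
`A`-bimodule `M`, and `∞` if there is no such `n`. -/
noncomputable def db : ℕ∞ := ⨅ (n : ℕ) (_ : ∀ M : BiMod A, HZero M n), (n : ℕ∞)

end Defs

/-! ### The Volterra algebra -/

/-- The Volterra algebra: the Banach space `L¹[0,1]` (classes of complex functions integrable for
Lebesgue measure `mI` on `[0,1]`). -/
def Volt : Type := MeasureTheory.Lp ℂ 1 Volt919.mI

noncomputable instance Volt.ngrp : NormedAddCommGroup Volt :=
  @MeasureTheory.Lp.instNormedAddCommGroup ℝ ℂ _ 1 Volt919.mI _ _

noncomputable instance Volt.nspc : NormedSpace ℂ Volt :=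
  @MeasureTheory.Lp.instNormedSpace ℝ ℂ _ 1 Volt919.mI _ ℂ _ _ _

theorem Volt.cpl : CompleteSpace Volt := inferInstanceAs (CompleteSpace Volt919.V)

/-- The product of the Volterra algebra: the class of `t ↦ ∫₀ᵗ f(s) g(t - s) ds`. -/
noncomputable def Volt.conv (f g : Volt) : Volt := Volt919.conv f g

theorem Volt.conv_add (a b c : Volt) : a.conv (b + c) = a.conv b + a.conv c :=
  Volt919.conv_add_right a b c

theorem Volt.add_conv (a b c : Volt) : (a + b).conv c = a.conv c + b.conv c :=
  Volt919.conv_add_left a b c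

theorem Volt.zero_conv (a : Volt) : (0 : Volt).conv a = 0 := by
  have h := Volt919.conv_smul_left 0 (0 : Volt919.V) a
  rw [zero_smul, zero_smul] at h
  exact h

theorem Volt.conv_zero (a : Volt) : a.conv (0 : Volt) = 0 := by
  have h := Volt919.conv_smul_right 0 a (0 : Volt919.V)
  rw [zero_smul, zero_smul] at h
  exact h

theorem Volt.conv_assoc (a b c : Volt) : (a.conv b).conv c = a.conv (b.conv c) :=
  Volt919.conv_assoc a b c

theorem Volt.norm_conv (a b : Volt) : ‖a.conv b‖ ≤ ‖a‖ * ‖b‖ := Volt919.norm_conv_le a b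

noncomputable instance Volt.nring : NonUnitalNormedRing Volt :=
  { Volt.ngrp with
    mul := Volt.conv
    left_distrib := Volt.conv_add
    right_distrib := Volt.add_conv
    zero_mul := Volt.zero_conv
    mul_zero := Volt.conv_zero
    mul_assoc := Volt.conv_assoc
    norm_mul_le := Volt.norm_conv }

end Pool.Agent.H724R3.Hd
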