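import Pool.Agent.H724R3.Hd.Defs
import Pool.Agent.H724R3.Vol.Dec
import Pool.Agent.H724R3.Vol.Res
import Pool.Agent.H724R3.Vol.Hoch

set_option autoImplicit false
set_option linter.unusedVariables false
set_option linter.unusedSectionVars false

open Filter Topology

namespace Pool.Agent.H724R3.Hd

section Lin

variable {X Y : Type} [NormedAddCommGroup X] [NormedSpace ℂ X] [NormedAddCommGroup Y]
  [NormedSpace ℂ Y]

/-- a bounded linear map as a continuous linear map -/
noncomputable def BdLin.toCLM {f : X → Y} (h : BdLin f) : X →L[ℂ] Y :=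
  LinearMap.mkContinuousOfExistsBound
    { toFun := f, map_add' := h.add, map_smul' := h.smul } h.bound

theorem BdLin.toCLM_apply {f : X → Y} (h : BdLin f) (x : X) : h.toCLM x = f x := rfl

theorem bdLin_clm (f : X →L[ℂ] Y) : BdLin (fun x => f x) :=
  ⟨map_add f, map_smul f, ⟨‖f‖, f.le_opNorm⟩⟩

end Lin

variable {A : Type} [NonUnitalNormedRing A] [NormedSpace ℂ A] [IsScalarTower ℂ A A]
  [SMulCommClass ℂ A A]

/-- the internal version of a module -/
noncomputable abbrev LMod.toI (M : LMod A) : Vol.LMod A where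
  X := M.X
  act := LinearMap.mkContinuous₂ (LinearMap.mk₂ ℂ M.act M.act_bilin.add_left M.act_bilin.smul_left
    M.act_bilin.add_right M.act_bilin.smul_right) M.act_bilin.bound.choose
      M.act_bilin.bound.choose_spec
  act_mul := M.act_mul

theorem LMod.toI_act (M : LMod A) (a : A) (x : M.X) : M.toI.act a x = M.act a x := rfl

/-- the public version of a module -/
noncomputable abbrev toP (M : Vol.LMod A) : LMod A where
  X := M.X
  act := fun a x => M.act a x
  act_bilin := ⟨fun a b x => by simp, fun c a x => by simp, fun a x y => by simp,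
    fun c a x => by simp, ⟨‖M.act‖, M.act.le_opNorm₂⟩⟩
  act_mul := M.act_mul

theorem toI_proj (P : LMod A) (h : Projective P) : Vol.Projective P.toI := by
  intro Y π hπ hs
  obtain ⟨s, hs⟩ := hs
  obtain ⟨ψ, hψ, h2⟩ := h (toP Y) (fun y => π y) ⟨bdLin_clm π, fun a x => hπ a x⟩
    ⟨fun p => s p, bdLin_clm s, hs⟩
  exact ⟨hψ.1.toCLM, hψ.2, h2⟩

/-- the internal version of a resolution -/
noncomputable def ProjRes.toI {M : LMod A} {n : ℕ} (R : ProjRes M n) : Vol.ProjRes M.toI n where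
  P := fun k => (R.P k).toI
  proj := fun k => toI_proj _ (R.proj k)
  ε := R.ε_mor.1.toCLM
  ε_mor := R.ε_mor.2
  d := fun k => (R.d_mor k).1.toCLM
  d_mor := fun k => (R.d_mor k).2
  ε_d := R.ε_d
  d_d := R.d_d
  σ := R.σ_lin.toCLM
  s := fun k => (R.s_lin k).toCLM
  split_ε := R.split_ε
  split_zero := R.split_zero
  split_succ := R.split_succ
  zero := R.zero

variable (A) in
/-- the trivial module -/
noncomputable abbrev triv : LMod A where
  X := ℂ
  act := fun _ _ => 0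
  act_bilin := ⟨fun _ _ _ => by simp, fun _ _ _ => by simp, fun _ _ _ => by simp,
    fun _ _ _ => by simp, ⟨0, fun _ _ => by simp⟩⟩
  act_mul := fun _ _ _ => rfl

theorem irred_triv : Irred (triv A) := by
  refine ⟨⟨(1 : ℂ), one_ne_zero⟩, fun p _ _ hs _ => ?_⟩
  by_cases h : ∀ x, p x → x = 0
  · exact Or.inl h
  · right
    push Not at h
    obtain ⟨x, hx, hx0⟩ := h
    intro y
    have h1 := hs ((y : ℂ) / (x : ℂ)) x hx
    have h2 : ((y : ℂ) / (x : ℂ)) • (x : ℂ) = (y : ℂ) := by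
      rw [smul_eq_mul, div_mul_cancel₀]
      exact hx0
    rw [← h2]
    exact h1

theorem dh_triv_eq_top (h : ∀ k, ∃ Z : Vol.LMod A, ¬ Vol.TT k Z) : dh (triv A) = ⊤ := by
  unfold dh
  refine iInf_eq_top.2 (fun n => iInf_eq_top.2 (fun hn => ?_))
  obtain ⟨R⟩ := hn
  obtain ⟨Z, hZ⟩ := h (n + 1)
  exact absurd (Vol.TT_of_VV (triv A).toI (fun a x => rfl) (ContinuousLinearMap.id ℂ ℂ) (1 : ℂ) rfl
    (n + 1) Z (R.toI.VV_succ Z)) hZ

theorem ds_eq_top (h : ∀ k, ∃ Z : Vol.LMod A, ¬ Vol.TT k Z) : ds A = ⊤ := by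
  rw [eq_top_iff, ← dh_triv_eq_top h]
  unfold ds
  exact le_iSup₂_of_le (triv A) irred_triv le_rfl

theorem dg_eq_top (h : ∀ k, ∃ Z : Vol.LMod A, ¬ Vol.TT k Z) : dg A = ⊤ := by
  rw [eq_top_iff, ← dh_triv_eq_top h]
  exact le_iSup_of_le (triv A) le_rfl

/-- a left module as a bimodule with trivial right action -/
noncomputable abbrev biP (Y : Vol.LMod A) : BiMod A where
  X := Y.X
  lact := fun a x => Y.act a x
  lact_bilin := ⟨fun a b x => by simp, fun c a x => by simp, fun a x y => by simp,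
    fun c a x => by simp, ⟨‖Y.act‖, Y.act.le_opNorm₂⟩⟩
  lact_mul := Y.act_mul
  ract := fun _ _ => 0
  ract_bilin := ⟨fun _ _ _ => by simp, fun _ _ _ => by simp, fun _ _ _ => by simp,
    fun _ _ _ => by simp, ⟨0, fun _ _ => by simp⟩⟩
  ract_mul := fun _ _ _ => rfl
  lact_ract := fun a b x => by simp

theorem hoch_biP (Y : Vol.LMod A) {n : ℕ} (f : (Fin n → A) → Y.X) (v : Fin (n + 1) → A) :
    hoch (biP Y) f v = Vol.hoch (Vol.bi Y) f v := rfl

theorem bdMult_cmm {Y : Type} [NormedAddCommGroup Y] [NormedSpace ℂ Y] {n : ℕ}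
    (f : ContinuousMultilinearMap ℂ (fun _ : Fin n => A) Y) : BdMult (fun v => f v) := by
  refine ⟨fun v i x x' => ?_, fun v i c x => ?_, ‖f‖, f.le_opNorm⟩
  · exact f.map_update_add v i x x'
  · exact f.map_update_smul v i c x

theorem BdMult.exists_cmm {Y : Type} [NormedAddCommGroup Y] [NormedSpace ℂ Y] {n : ℕ}
    {f : (Fin n → A) → Y} (h : BdMult f) :
    ∃ g : ContinuousMultilinearMap ℂ (fun _ : Fin n => A) Y, ∀ v, g v = f v := by
  obtain ⟨C, hC⟩ := h.bound
  let F : MultilinearMap ℂ (fun _ : Fin n => A) Y := MultilinearMap.mk' f h.add h.smul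
  exact ⟨F.mkContinuous C hC, fun v => rfl⟩

theorem hZero_bi (Y : Vol.LMod A) (n : ℕ) (h : HZero (biP Y) n) : Vol.HZero (Vol.bi Y) n := by
  intro f hf
  obtain ⟨g, hg, hfg⟩ := h (fun v => f v) (bdMult_cmm f) hf
  obtain ⟨g', hg'⟩ := hg.exists_cmm
  refine ⟨g', fun v => ?_⟩
  have e : (g' : (Fin n → A) → Y.X) = g := funext hg'
  rw [e]
  exact hfg v

theorem db_eq_top (h : ∀ k, ∃ Z : Vol.LMod A, ¬ Vol.TT k Z) : db A = ⊤ := by
  unfold db
  refine iInf_eq_top.2 (fun n => iInf_eq_top.2 (fun hn => ?_))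
  obtain ⟨Z, hZ⟩ := h n
  exact absurd (Vol.TT_of_HZero n Z (hZero_bi Z n (hn (biP Z)))) hZ

/-! ### The Volterra algebra -/

instance : CompleteSpace Volt := Volt.cpl

instance : IsScalarTower ℂ Volt Volt := ⟨fun c a b => Volt919.conv_smul_left c a b⟩

instance : SMulCommClass ℂ Volt Volt := ⟨fun c a b => (Volt919.conv_smul_right c a b).symm⟩

/-- A representative of an element of the Volterra algebra. -/
noncomputable def Volt.fn (f : Volt) : ℝ → ℂ :=
  ((show MeasureTheory.Lp ℂ 1 Volt919.mI from f) : ℝ → ℂ)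

/-- The product of the Volterra algebra is the truncated convolution. -/
theorem Volt.mul_ae (f g : Volt) :
    (f * g).fn =ᵐ[Volt919.mI] fun t => ∫ s in (0:ℝ)..t, f.fn s * g.fn (t - s) :=
  Volt919.g02_conv_ae f g

/-- The norm of the Volterra algebra is the norm of `L¹[0,1]`. -/
theorem Volt.norm_eq (f : Volt) : ‖f‖ = ∫ t in (0:ℝ)..1, ‖f.fn t‖ := Volt919.norm_eq f

/-- the endpoints `1/(n+1)` -/
noncomputable def tt (n : ℕ) : ℝ := 1 / ((n : ℝ) + 1)

theorem tt_pos (n : ℕ) : 0 < tt n := by unfold tt; positivity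

theorem tt_le_one (n : ℕ) : tt n ≤ 1 := by
  unfold tt
  rw [div_le_one (by positivity)]
  have : (0 : ℝ) ≤ n := Nat.cast_nonneg n
  linarith

theorem tt_anti {m n : ℕ} (h : m ≤ n) : tt n ≤ tt m := by
  unfold tt
  have : (m : ℝ) ≤ n := by exact_mod_cast h
  gcongr

theorem tt_tendsto : Tendsto tt atTop (𝓝[>] 0) := by
  rw [tendsto_nhdsWithin_iff]
  exact ⟨tendsto_one_div_add_atTop_nhds_zero_nat, Eventually.of_forall tt_pos⟩

/-- restriction to `[0, 1/(n+1))` -/
noncomputable def PV (n : ℕ) : Volt →L[ℂ] Volt := Volt919.P (tt n)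

theorem PV_mul0 (t : ℝ) (a b : Volt919.V) : Volt919.P t (Volt919.conv a b) =
    Volt919.P t (Volt919.conv a (Volt919.P t b)) := by
  rw [Volt919.conv_comm a b, Volt919.P_conv, Volt919.conv_comm a]

theorem PV_mul (n : ℕ) (a b : Volt) : PV n (a * b) = PV n (a * PV n b) := PV_mul0 (tt n) a b

theorem PV_le0 {s t : ℝ} (h : t ≤ s) (f : Volt919.V) :
    Volt919.P s (Volt919.P t f) = Volt919.P t f := by
  rw [Volt919.P_P, min_eq_right h]

theorem PV_ge0 {s t : ℝ} (h : t ≤ s) (f : Volt919.V) :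
    Volt919.P t (Volt919.P s f) = Volt919.P t f := by
  rw [Volt919.P_P, min_eq_left h]

theorem PV_ne (n : ℕ) : ∃ a : Volt, a ≠ 0 ∧ PV n a = a := by
  refine ⟨(PV n (Volt919.u : Volt919.V) : Volt), ?_, ?_⟩
  · have h1 : ‖Volt919.P (tt n) Volt919.u‖ = tt n := by
      rw [Volt919.norm_P _ (tt_pos n).le (tt_le_one n),
        Volt919.g10_int_u (tt_pos n).le (tt_le_one n)]
    intro h
    have h2 : ‖Volt919.P (tt n) Volt919.u‖ = 0 := by
      have : Volt919.P (tt n) Volt919.u = 0 := h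
      rw [this, norm_zero]
    rw [h2] at h1
    exact absurd h1 (tt_pos n).ne
  · change Volt919.P (tt n) (Volt919.P (tt n) Volt919.u) = Volt919.P (tt n) Volt919.u
    rw [Volt919.P_P, min_self]

noncomputable def voltDec : Vol.Dec Volt where
  P := PV
  P_zero := fun f => Volt919.P_of_one_le (by unfold tt; simp) f
  P_le := fun m n f h => PV_le0 (tt_anti h) f
  P_ge := fun m n f h => PV_ge0 (tt_anti h) f
  split := fun n f => (Volt919.norm_split (tt n) f).ge
  P_mul := PV_mul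
  P_lim := fun f => (Volt919.P_tendsto_zero f).comp tt_tendsto
  P_ne := PV_ne

theorem volt_brai : Vol.BRAI Volt := by
  refine ⟨fun n => Volt919.e (tt n), 1, fun n => Volt919.norm_e_le (tt_pos n), fun a => ?_⟩
  have h1 := (Volt919.conv_e_tendsto a).comp tt_tendsto
  exact h1.congr (fun n => Volt919.conv_comm _ _)

theorem volt_not_TT (k : ℕ) : ∃ Z : Vol.LMod Volt, ¬ Vol.TT k Z :=
  Vol.exists_not_TT_of_dec volt_brai voltDec k

theorem volt_dims : ds Volt = ⊤ ∧ dg Volt = ⊤ ∧ db Volt = ⊤ :=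
  ⟨ds_eq_top volt_not_TT, dg_eq_top volt_not_TT, db_eq_top volt_not_TT⟩

end Pool.Agent.H724R3.Hd
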